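import Mathlib
open MeasureTheory Set
open scoped ENNReal
namespace Pool.Agent.H.MP_a2bed5_pr

variable {n : ℕ}

def raw (w : Fin (n+1) → ℝ) (s t : ℝ) : Fin (n+1) → ℝ :=
  fun j => max (w j + (if j = 0 then s else 0) - t) 0

lemma cnt {w : Fin (n+1) → ℝ} (hw : Monotone w) (i j : Fin (n+1)) (hij : (j:ℕ) = i + 1) (v : ℝ) :
    (w i ≤ v ∧ v < w j) ↔ (Finset.univ.filter fun l => w l ≤ v).card = j := by
  rw [← Tuple.lt_card_le_iff_apply_le_of_monotone hw, ← not_le (a := w j),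
    ← Tuple.lt_card_le_iff_apply_le_of_monotone hw]
  omega

lemma low {w w' : Fin (n+1) → ℝ} {s t : ℝ} (hw : Monotone w) (hs : 0 ≤ s)
    (σ : Equiv.Perm (Fin (n+1))) (he : w' = raw w s t ∘ σ) (j : Fin (n+1)) :
    0 ≤ w' j ∧ w 0 - t ≤ w' j := by
  subst he
  refine ⟨le_max_right _ _, le_trans ?_ (le_max_left _ _)⟩
  have := hw (Fin.zero_le (σ j))
  split_ifs <;> linarith

lemma path {w w' : Fin (n+1) → ℝ} {s t : ℝ} (hw : Monotone w) (hs : 0 ≤ s) (hw' : Monotone w')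
    (σ : Equiv.Perm (Fin (n+1))) (he : w' = raw w s t ∘ σ) (i j l : Fin (n+1))
    (hij : (j:ℕ) = i + 1) (hjl : (l:ℕ) = j + 1) (x : ℝ)
    (hx : x ∈ Ico (w' i - w' 0) (w' j - w' 0)) :
    x + (w' 0 + t - w 0) ∈ (Ico (w j - w 0) (w l - w 0) ∩ Iio s) ∪
      (Ico (w i - w 0) (w j - w 0) ∩ Ici s) := by
  obtain ⟨h0, h1⟩ := low hw hs σ he 0
  have hx0 : 0 ≤ x := by have := hw' (Fin.zero_le i); have := hx.1; linarith
  have hc := (cnt hw' i j hij (w' 0 + x)).1 ⟨by have := hx.1; linarith, by have := hx.2; linarith⟩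
  have hc2 : (Finset.univ.filter fun a => w a + (if a = 0 then s else 0) ≤ w' 0 + x + t).card = j := by
    rw [← hc]
    symm
    apply Finset.card_bij (fun a _ => σ a)
    · intro a ha
      simp only [Finset.mem_filter, Finset.mem_univ, true_and] at ha ⊢
      have : w' a = max (w (σ a) + (if σ a = 0 then s else 0) - t) 0 := by rw [he]; rfl
      rw [this] at ha
      have := (max_le_iff.1 ha).1
      linarith
    · intro a _ b _ h; exact σ.injective h
    · intro b hb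
      refine ⟨σ.symm b, ?_, by simp⟩
      simp only [Finset.mem_filter, Finset.mem_univ, true_and] at hb ⊢
      have : w' (σ.symm b) = max (w b + (if b = 0 then s else 0) - t) 0 := by
        rw [he]; simp [raw]
      rw [this]
      exact max_le (by linarith) (by linarith)
  by_cases hy : x + (w' 0 + t - w 0) < s
  · left
    refine ⟨?_, hy⟩
    have : (Finset.univ.filter fun a => w a ≤ w' 0 + x + t).card = l := by
      rw [hjl, ← hc2, ← Finset.card_insert_of_notMem (a := (0 : Fin (n+1)))]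
      · congr 1
        ext a
        simp only [Finset.mem_filter, Finset.mem_univ, true_and, Finset.mem_insert]
        by_cases ha : a = 0
        · subst ha; simp; linarith
        · simp [ha]
      · simp; linarith
    have := (cnt hw j l hjl _).2 this
    exact ⟨by linarith [this.1], by linarith [this.2]⟩
  · right
    refine ⟨?_, not_lt.1 hy⟩
    have : (Finset.univ.filter fun a => w a ≤ w' 0 + x + t).card = j := by
      rw [← hc2]
      congr 1
      ext a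
      simp only [Finset.mem_filter, Finset.mem_univ, true_and]
      by_cases ha : a = 0
      · subst ha; simp; constructor <;> intro <;> linarith [not_lt.1 hy]
      · simp [ha]
    have := (cnt hw i j hij _).2 this
    exact ⟨by linarith [this.1], by linarith [this.2]⟩

lemma pathvol {w w' : Fin (n+1) → ℝ} {s t : ℝ} (hw : Monotone w) (hs : 0 ≤ s) (hw' : Monotone w')
    (σ : Equiv.Perm (Fin (n+1))) (he : w' = raw w s t ∘ σ) (i j l : Fin (n+1))
    (hij : (j:ℕ) = i + 1) (hjl : (l:ℕ) = j + 1) {U : Set ℝ} (hU : IsUpperSet U) :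
    volume (U ∩ Ico (w' i - w' 0) (w' j - w' 0)) ≤
      volume (U ∩ Ico (w j - w 0) (w l - w 0) ∩ Iio s) +
      volume (U ∩ Ico (w i - w 0) (w j - w 0) ∩ Ici s) := by
  refine le_trans ?_ (measure_union_le _ _)
  rw [← measure_preimage_add_right volume (w' 0 + t - w 0)
    (U ∩ Ico (w j - w 0) (w l - w 0) ∩ Iio s ∪ U ∩ Ico (w i - w 0) (w j - w 0) ∩ Ici s)]
  apply measure_mono
  rintro x ⟨hxU, hx⟩
  have h1 := (low hw hs σ he 0).2
  have hU' : x + (w' 0 + t - w 0) ∈ U := hU (by linarith : x ≤ x + (w' 0 + t - w 0)) hxU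
  rcases path hw hs hw' σ he i j l hij hjl x hx with h | h
  · exact Or.inl ⟨⟨hU', h.1⟩, h.2⟩
  · exact Or.inr ⟨⟨hU', h.1⟩, h.2⟩

lemma top {w w' : Fin (n+1) → ℝ} {s t y : ℝ} (hw : Monotone w) (hs : 0 ≤ s) (hsy : s ≤ y)
    (σ : Equiv.Perm (Fin (n+1))) (he : w' = raw w s t ∘ σ)
    (h : w' 0 + y < w' (Fin.last n)) :
    w 0 + y < w (Fin.last n) ∧ w' (Fin.last n) ≤ w (Fin.last n) - t := by
  obtain ⟨h0, h1⟩ := low hw hs σ he 0
  have e : w' (Fin.last n) = max (w (σ (Fin.last n)) + (if σ (Fin.last n) = 0 then s else 0) - t) 0 := by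
    rw [he]; rfl
  have h2 := hw (Fin.le_last (σ (Fin.last n)))
  have h3 : w' (Fin.last n) = w (σ (Fin.last n)) + (if σ (Fin.last n) = 0 then s else 0) - t := by
    rcases max_cases (w (σ (Fin.last n)) + (if σ (Fin.last n) = 0 then s else 0) - t) 0 with h4 | h4
    · rw [e, h4.1]
    · rw [h4.1] at e; linarith
  split_ifs at h3 with h4
  · rw [h4] at h3; linarith
  · constructor <;> linarith

lemma volIoo (c : ℝ≥0∞) : volume {t : ℝ | 0 < t ∧ ENNReal.ofReal t < c} = c := by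
  by_cases hc : c = ⊤
  · subst hc
    have : {t : ℝ | 0 < t ∧ ENNReal.ofReal t < ⊤} = Ioi 0 := by ext t; simp
    rw [this]; simp
  · have : {t : ℝ | 0 < t ∧ ENNReal.ofReal t < c} = Ioo 0 c.toReal := by
      ext t
      simp only [mem_ofPred_eq, mem_Ioo]
      constructor
      · rintro ⟨a, b⟩; exact ⟨a, (ENNReal.ofReal_lt_iff_lt_toReal a.le hc).1 b⟩
      · rintro ⟨a, b⟩; exact ⟨a, (ENNReal.ofReal_lt_iff_lt_toReal a.le hc).2 b⟩
    rw [this]; simp [hc]

lemma layer {q f : ℝ → ℝ≥0∞} (hq : Measurable q) (hf : Measurable f) :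
    ∫⁻ y, q y * f y = ∫⁻ t in Ioi (0:ℝ), ∫⁻ y in {y | ENNReal.ofReal t < q y}, f y := by
  have hm : MeasurableSet {p : ℝ × ℝ | 0 < p.2 ∧ ENNReal.ofReal p.2 < q p.1} :=
    (measurableSet_lt measurable_const measurable_snd).inter
      (measurableSet_lt (measurable_snd.ennreal_ofReal) (hq.comp measurable_fst))
  have h1 : ∀ y, q y * f y = ∫⁻ t, indicator {p : ℝ × ℝ | 0 < p.2 ∧ ENNReal.ofReal p.2 < q p.1}
      (fun p => f p.1) (y, t) := by
    intro y
    have : (fun t => indicator {p : ℝ × ℝ | 0 < p.2 ∧ ENNReal.ofReal p.2 < q p.1}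
      (fun p => f p.1) (y, t)) = indicator {t : ℝ | 0 < t ∧ ENNReal.ofReal t < q y} (fun _ => f y) := by
      funext t; simp only [indicator, mem_ofPred_eq]
    rw [this, lintegral_indicator_const, volIoo, mul_comm]
    exact (measurableSet_lt measurable_const measurable_id).inter
      (measurableSet_lt (measurable_id.ennreal_ofReal) measurable_const)
  simp_rw [h1]
  rw [lintegral_lintegral_swap, ← lintegral_indicator measurableSet_Ioi]
  · congr 1; funext t
    by_cases ht : 0 < t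
    · rw [indicator_of_mem (show t ∈ Ioi (0:ℝ) from ht), ← lintegral_indicator
        (measurableSet_lt measurable_const hq)]
      congr 1; funext y
      by_cases hy : ENNReal.ofReal t < q y <;> simp [indicator, ht, hy]
    · rw [indicator_of_notMem (show t ∉ Ioi (0:ℝ) from ht)]
      simp [indicator, ht]
  · exact ((hf.comp measurable_fst).indicator hm).aemeasurable

lemma weight {p f g : ℝ → ℝ≥0∞} (hp : Antitone p) (hp1 : ∀ y, p y ≠ ⊤) (hf : Measurable f)
    (hg : Measurable g) (h0 : ∀ y, p y = 0 → f y = 0)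
    (h : ∀ U : Set ℝ, IsUpperSet U → MeasurableSet U →
      ∫⁻ y in U, p y * f y ≤ ∫⁻ y in U, p y * g y) : ∫⁻ y, f y ≤ ∫⁻ y, g y := by
  have hpm := hp.measurable
  calc ∫⁻ y, f y = ∫⁻ y, (p y)⁻¹ * (p y * f y) := by
        congr 1; funext y
        by_cases hy : p y = 0
        · simp [h0 y hy]
        · rw [← mul_assoc, ENNReal.inv_mul_cancel hy (hp1 y), one_mul]
    _ ≤ ∫⁻ y, (p y)⁻¹ * (p y * g y) := by
        rw [layer (q := fun y => (p y)⁻¹) (f := fun y => p y * f y) hpm.inv (hpm.mul hf),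
          layer (q := fun y => (p y)⁻¹) (f := fun y => p y * g y) hpm.inv (hpm.mul hg)]
        refine lintegral_mono fun t => h _ ?_ (measurableSet_lt measurable_const hpm.inv)
        intro a b hab ha
        exact lt_of_lt_of_le ha (ENNReal.inv_le_inv.2 (hp hab))
    _ ≤ ∫⁻ y, g y := by
        refine lintegral_mono fun y => ?_
        by_cases hy : p y = 0
        · simp [hy]
        · rw [← mul_assoc, ENNReal.inv_mul_cancel hy (hp1 y), one_mul]

lemma fub {α : Type} [MeasurableSpace α] (P : Measure α) [IsProbabilityMeasure P]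
    {B : Set (α × ℝ)} (hB : MeasurableSet B) (U : Set ℝ) :
    Measurable (fun x => volume ({y | (x, y) ∈ B} ∩ U)) ∧
    Measurable (fun y => P {x | (x, y) ∈ B}) ∧
    ∫⁻ x, volume ({y | (x, y) ∈ B} ∩ U) ∂P = ∫⁻ y in U, P {x | (x, y) ∈ B} := by
  have e : ∀ x, volume ({y | (x, y) ∈ B} ∩ U) = (volume.restrict U) (Prod.mk x ⁻¹' B) := by
    intro x
    rw [Measure.restrict_apply (measurable_prodMk_left hB)]; rfl
  simp_rw [e]
  refine ⟨measurable_measure_prodMk_left hB, measurable_measure_prodMk_right hB, ?_⟩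
  rw [← Measure.prod_apply hB, Measure.prod_apply_symm hB]
  rfl

def gap (a b : Fin (n+1)) : Set ((Fin (n+1) → ℝ) × ℝ) :=
  {p | p.2 ∈ Ico (p.1 a - p.1 0) (p.1 b - p.1 0)}

lemma gap_meas (a b : Fin (n+1)) : MeasurableSet (gap a b) := by
  have h1 : MeasurableSet {p : (Fin (n+1) → ℝ) × ℝ | p.1 a - p.1 0 ≤ p.2} :=
    measurableSet_le (by fun_prop) (by fun_prop)
  have h2 : MeasurableSet {p : (Fin (n+1) → ℝ) × ℝ | p.2 < p.1 b - p.1 0} :=
    measurableSet_lt (by fun_prop) (by fun_prop)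
  exact h1.inter h2

section
variable (π : Measure (Fin (n+1) → ℝ)) [IsProbabilityMeasure π] (μS μT : Measure ℝ)
  [IsProbabilityMeasure μS] [IsProbabilityMeasure μT]
  (F : (Fin (n+1) → ℝ) × ℝ × ℝ → Fin (n+1) → ℝ)

lemma gap3 (a b : Fin (n+1)) (U : Set ℝ) {R : Set (ℝ × ℝ)} (hR : MeasurableSet R) :
    Measurable (fun x : (Fin (n+1) → ℝ) × ℝ × ℝ =>
      volume (U ∩ Ico (x.1 a - x.1 0) (x.1 b - x.1 0) ∩ {y | (x.2.1, y) ∈ R})) ∧
    ∫⁻ x, volume (U ∩ Ico (x.1 a - x.1 0) (x.1 b - x.1 0) ∩ {y | (x.2.1, y) ∈ R})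
      ∂(π.prod (μS.prod μT)) = ∫⁻ y in U, μS {s | (s, y) ∈ R} * π {w | (w, y) ∈ gap a b} := by
  have hB : MeasurableSet {p : ((Fin (n+1) → ℝ) × ℝ × ℝ) × ℝ |
      (p.1.1, p.2) ∈ gap a b ∧ (p.1.2.1, p.2) ∈ R} :=
    ((gap_meas a b).preimage (by fun_prop)).inter (hR.preimage (by fun_prop))
  obtain ⟨h1, -, h3⟩ := fub (π.prod (μS.prod μT)) hB U
  have e : ∀ x : (Fin (n+1) → ℝ) × ℝ × ℝ,
      U ∩ Ico (x.1 a - x.1 0) (x.1 b - x.1 0) ∩ {y | (x.2.1, y) ∈ R} =
      {y | (x, y) ∈ {p : ((Fin (n+1) → ℝ) × ℝ × ℝ) × ℝ |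
      (p.1.1, p.2) ∈ gap a b ∧ (p.1.2.1, p.2) ∈ R}} ∩ U := by
    intro x; ext y; simp only [gap, mem_inter_iff, mem_ofPred_eq]; tauto
  simp_rw [e]
  refine ⟨h1, h3.trans ?_⟩
  congr 1; funext y
  have : {x : (Fin (n+1) → ℝ) × ℝ × ℝ | (x, y) ∈ {p : ((Fin (n+1) → ℝ) × ℝ × ℝ) × ℝ |
      (p.1.1, p.2) ∈ gap a b ∧ (p.1.2.1, p.2) ∈ R}} =
      {w | (w, y) ∈ gap a b} ×ˢ ({s | (s, y) ∈ R} ×ˢ (univ : Set ℝ)) := by
    ext x; simp
  rw [this, Measure.prod_prod, Measure.prod_prod]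
  simp [mul_comm]

variable (hS : μS (Iio 0) = 0) (hT : μT (Iio 0) = 0) (hT0 : μT (Ioi 0) ≠ 0)
  (hF : ∀ x, Monotone (F x) ∧ ∃ σ : Equiv.Perm (Fin (n+1)), F x = raw x.1 x.2.1 x.2.2 ∘ σ)
  (hst : (π.prod (μS.prod μT)).map F = π)

omit [IsProbabilityMeasure μS] [IsProbabilityMeasure μT] in
include hst in
lemma aem : AEMeasurable F (π.prod (μS.prod μT)) :=
  AEMeasurable.of_map_ne_zero (by rw [hst]; exact IsProbabilityMeasure.ne_zero _)

include hst hF in
lemma aemono : ∀ᵐ w ∂π, Monotone w ∧ ∀ j, 0 ≤ w j := by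
  have hm : MeasurableSet {w : Fin (n+1) → ℝ | Monotone w ∧ ∀ j, 0 ≤ w j} := by
    have : {w : Fin (n+1) → ℝ | Monotone w ∧ ∀ j, 0 ≤ w j} =
        (⋂ a, ⋂ b, ⋂ _ : a ≤ b, {w | w a ≤ w b}) ∩ ⋂ j, {w | 0 ≤ w j} := by
      ext w; simp [Monotone]
    rw [this]
    exact (MeasurableSet.iInter fun a => MeasurableSet.iInter fun b => MeasurableSet.iInter fun _ =>
      measurableSet_le (by fun_prop) (by fun_prop)).inter
      (MeasurableSet.iInter fun j => measurableSet_le (by fun_prop) (by fun_prop))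
  have := (ae_map_iff (aem π μS μT F hst) hm).2 (Filter.Eventually.of_forall fun x => by
    obtain ⟨h1, σ, h2⟩ := hF x
    exact ⟨h1, fun j => by rw [h2]; exact le_max_right _ _⟩)
  rwa [hst] at this

include hst hF hS hT in
lemma ae3 {Q : ℝ → Prop} (hQ : ∀ᵐ s ∂μS, Q s) :
    ∀ᵐ x ∂(π.prod (μS.prod μT)), Monotone x.1 ∧ 0 ≤ x.2.1 ∧ Q x.2.1 ∧ 0 ≤ x.2.2 := by
  have h1 : ∀ᵐ s ∂μS, 0 ≤ s := by
    rw [ae_iff]; simpa [Iio] using hS
  have h2 : ∀ᵐ s ∂μT, 0 ≤ s := by
    rw [ae_iff]; simpa [Iio] using hT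
  have a1 := Measure.quasiMeasurePreserving_fst (μ := π) (ν := μS.prod μT) |>.ae
    (aemono π μS μT F hF hst)
  have a2 := Measure.quasiMeasurePreserving_snd (μ := π) (ν := μS.prod μT) |>.ae
    ((Measure.quasiMeasurePreserving_fst (μ := μS) (ν := μT) |>.ae (h1.and hQ)).and
     (Measure.quasiMeasurePreserving_snd (μ := μS) (ν := μT) |>.ae h2))
  filter_upwards [a1, a2] with x b1 b2
  exact ⟨b1.1, b2.1.1, b2.1.2, b2.2⟩

include hst hF hS hT in
lemma key (i j l : Fin (n+1)) (hij : (j:ℕ) = i + 1) (hjl : (l:ℕ) = j + 1)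
    (hfin : ∫⁻ y, π {w | (w, y) ∈ gap i j} ≠ ⊤) (U : Set ℝ) (hU : IsUpperSet U) :
    ∫⁻ y in U, μS (Ioi y) * π {w | (w, y) ∈ gap i j} ≤
      ∫⁻ y in U, μS (Ioi y) * π {w | (w, y) ∈ gap j l} := by
  obtain ⟨m1, m2, m3⟩ := fub π (gap_meas i j) U
  have r1 : MeasurableSet {p : ℝ × ℝ | p.2 < p.1} := measurableSet_lt measurable_snd measurable_fst
  have r2 : MeasurableSet {p : ℝ × ℝ | p.1 ≤ p.2} := measurableSet_le measurable_fst measurable_snd
  obtain ⟨k1, k2⟩ := gap3 π μS μT j l U r1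
  obtain ⟨k3, k4⟩ := gap3 π μS μT i j U r2
  have e1 : ∫⁻ y in U, π {w | (w, y) ∈ gap i j} ≤
      (∫⁻ y in U, μS (Ioi y) * π {w | (w, y) ∈ gap j l}) +
      ∫⁻ y in U, μS (Iic y) * π {w | (w, y) ∈ gap i j} := by
    rw [← m3]
    conv_lhs => rw [← hst]
    rw [lintegral_map' m1.aemeasurable (aem π μS μT F hst)]
    refine le_trans ?_ (add_le_add k2.le k4.le)
    rw [← lintegral_add_left k1]
    refine lintegral_mono_ae ?_
    filter_upwards [ae3 π μS μT F hS hT hF hst (Q := fun _ => True) (by simp)] with x hx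
    obtain ⟨h1, σ, h2⟩ := hF x
    have := pathvol hx.1 hx.2.1 h1 σ h2 i j l hij hjl hU
    rw [inter_comm U] at this
    exact this
  have ma : Measurable fun y => μS (Ioi y) :=
    Antitone.measurable fun a b h => measure_mono (Ioi_subset_Ioi h)
  have e2 : ∫⁻ y in U, π {w | (w, y) ∈ gap i j} =
      (∫⁻ y in U, μS (Ioi y) * π {w | (w, y) ∈ gap i j}) +
      ∫⁻ y in U, μS (Iic y) * π {w | (w, y) ∈ gap i j} := by
    rw [← lintegral_add_left (f := fun y => μS (Ioi y) * π {w | (w, y) ∈ gap i j}) (ma.mul m2)]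
    congr 1; funext y
    rw [← add_mul, ← compl_Ioi, prob_add_prob_compl measurableSet_Ioi, one_mul]
  have e3 : ∫⁻ y in U, μS (Iic y) * π {w | (w, y) ∈ gap i j} ≠ ⊤ := by
    refine ne_top_of_le_ne_top hfin (le_trans (lintegral_mono fun y => ?_)
      (setLIntegral_le_lintegral U _))
    exact mul_le_of_le_one_left' prob_le_one
  rw [e2] at e1
  exact (ENNReal.add_le_add_iff_right e3).1 e1

include hst hF hS hT hT0 in
lemma zero (y : ℝ) (hy : μS (Ioi y) = 0) : π {w | w 0 + y < w (Fin.last n)} = 0 := by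
  set A : Set (Fin (n+1) → ℝ) := {w | w 0 + y < w (Fin.last n)} with hA
  have mA : MeasurableSet A := measurableSet_lt (by fun_prop) (by fun_prop)
  set φ : ℝ → ℝ≥0∞ := fun u => ENNReal.ofReal (Real.arctan u + 2) with hφ
  have mφ : Measurable φ := (Real.measurable_arctan.add_const 2).ennreal_ofReal
  have pos : ∀ u, 0 < Real.arctan u + 2 := fun u => by
    have := Real.neg_pi_div_two_lt_arctan u
    have := Real.pi_le_four
    linarith
  have sφ : StrictMono φ := fun a b h =>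
    (ENNReal.ofReal_lt_ofReal_iff (pos b)).2 (by have := Real.arctan_strictMono h; linarith)
  have bφ : ∀ u, φ u ≤ 4 := fun u => by
    have := Real.arctan_lt_pi_div_two u
    have := Real.pi_le_four
    have h : ENNReal.ofReal (Real.arctan u + 2) ≤ ENNReal.ofReal 4 :=
      ENNReal.ofReal_le_ofReal (by linarith)
    exact h.trans (by simp)
  set V : (Fin (n+1) → ℝ) → ℝ≥0∞ := A.indicator fun w => φ (w (Fin.last n)) with hV
  have mV : Measurable V := (mφ.comp (measurable_pi_apply _)).indicator mA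
  set G : (Fin (n+1) → ℝ) × ℝ × ℝ → ℝ≥0∞ :=
    (Prod.fst ⁻¹' A).indicator fun x => φ (x.1 (Fin.last n) - x.2.2) with hG
  have hQ : ∀ᵐ s ∂μS, s ≤ y := by rw [ae_iff]; simpa [Ioi] using hy
  have ae := ae3 π μS μT F hS hT hF hst hQ
  have l1 : ∀ᵐ x ∂(π.prod (μS.prod μT)), V (F x) ≤ G x := by
    filter_upwards [ae] with x hx
    obtain ⟨-, σ, h2⟩ := hF x
    by_cases h : F x ∈ A
    · obtain ⟨t1, t2⟩ := top hx.1 hx.2.1 hx.2.2.1 σ h2 h
      rw [hV, hG, indicator_of_mem h, indicator_of_mem (show x ∈ Prod.fst ⁻¹' A from t1)]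
      exact sφ.monotone t2
    · rw [hV, indicator_of_notMem h]; exact zero_le
  have l2 : ∀ᵐ x ∂(π.prod (μS.prod μT)), G x ≤ V x.1 := by
    filter_upwards [ae] with x hx
    by_cases h : x.1 ∈ A
    · rw [hV, hG, indicator_of_mem h, indicator_of_mem (show x ∈ Prod.fst ⁻¹' A from h)]
      exact sφ.monotone (by linarith [hx.2.2.2])
    · rw [hG, indicator_of_notMem (show x ∉ Prod.fst ⁻¹' A from h)]; exact zero_le
  have e1 : ∫⁻ x, V x.1 ∂(π.prod (μS.prod μT)) = ∫⁻ x, V (F x) ∂(π.prod (μS.prod μT)) := by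
    rw [← lintegral_map' mV.aemeasurable (aem π μS μT F hst), hst,
      ← lintegral_map mV measurable_fst, Measure.map_fst_prod]
    simp
  have fin : ∫⁻ x, G x ∂(π.prod (μS.prod μT)) ≠ ⊤ := by
    have : ∫⁻ x, G x ∂(π.prod (μS.prod μT)) ≤ ∫⁻ _, 4 ∂(π.prod (μS.prod μT)) :=
      lintegral_mono fun x => indicator_le' (fun _ _ => bφ _) (fun _ _ => zero_le) x
    refine ne_top_of_le_ne_top ?_ this
    simp
  have eq := ae_eq_of_ae_le_of_lintegral_le l2 fin (mV.comp measurable_fst).aemeasurable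
    (e1.le.trans (lintegral_mono_ae l1))
  have z : (π.prod (μS.prod μT)) (A ×ˢ ((univ : Set ℝ) ×ˢ Ioi (0:ℝ))) = 0 := by
    refine measure_mono_null ?_ (ae_iff.1 eq)
    rintro x ⟨h, -, h3⟩
    simp only [mem_ofPred_eq]
    rw [hV, hG, indicator_of_mem h, indicator_of_mem (show x ∈ Prod.fst ⁻¹' A from h)]
    exact (sφ (by have : (0:ℝ) < x.2.2 := h3; linarith)).ne
  rw [Measure.prod_prod, Measure.prod_prod] at z
  simpa [hT0] using z

include hst hF in
lemma split (a b : Fin (n+1)) (hab : a ≤ b) :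
    ∫⁻ w, ENNReal.ofReal (w b) ∂π =
      ∫⁻ w, ENNReal.ofReal (w a) ∂π + ∫⁻ y, π {w | (w, y) ∈ gap a b} := by
  obtain ⟨m1, -, m3⟩ := fub π (gap_meas a b) univ
  rw [Measure.restrict_univ] at m3
  rw [← m3, ← lintegral_add_left (by fun_prop)]
  refine lintegral_congr_ae ?_
  filter_upwards [aemono π μS μT F hF hst] with w hw
  have : {y | (w, y) ∈ gap a b} ∩ univ = Ico (w a - w 0) (w b - w 0) := by
    ext y; simp [gap]
  rw [this, Real.volume_Ico, ← ENNReal.ofReal_add (hw.2 a) (by have := hw.1 hab; linarith)]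
  congr 1; ring

include hst hF hS hT hT0 in
theorem main (i j l : Fin (n+1)) (hij : (j:ℕ) = i + 1) (hjl : (l:ℕ) = j + 1) :
    2 * ∫⁻ w, ENNReal.ofReal (w j) ∂π ≤
      ∫⁻ w, ENNReal.ofReal (w i) ∂π + ∫⁻ w, ENNReal.ofReal (w l) ∂π := by
  have s1 := split π μS μT F hF hst i j (Fin.le_def.2 (by omega))
  have s2 := split π μS μT F hF hst j l (Fin.le_def.2 (by omega))
  by_cases hfin : ∫⁻ y, π {w | (w, y) ∈ gap i j} = ⊤
  · rw [s2, s1, hfin]; simp
  have hw : ∫⁻ y, π {w | (w, y) ∈ gap i j} ≤ ∫⁻ y, π {w | (w, y) ∈ gap j l} := by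
    refine weight (p := fun y => μS (Ioi y)) (fun a b h => measure_mono (Ioi_subset_Ioi h))
      (fun y => measure_ne_top _ _) (fub π (gap_meas i j) univ).2.1
      (fub π (gap_meas j l) univ).2.1 (fun y hy => ?_)
      (fun U hU _ => key π μS μT F hS hT hF hst i j l hij hjl hfin U hU)
    have z := zero π μS μT F hS hT hT0 hF hst y hy
    refine measure_mono_null ?_ (measure_union_null z (ae_iff.1 (aemono π μS μT F hF hst)))
    intro w hw
    by_cases h : Monotone w ∧ ∀ j, 0 ≤ w j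
    · left
      have h1 : y < w j - w 0 := hw.2
      have := h.1 (Fin.le_last j)
      simp only [mem_ofPred_eq]
      linarith
    · exact Or.inr h
  rw [two_mul, s2]
  conv_lhs => rw [s1]
  conv_rhs => rw [s1]
  generalize ∫⁻ y, π {w | (w, y) ∈ gap i j} = a at *
  generalize ∫⁻ y, π {w | (w, y) ∈ gap j l} = b at *
  generalize ∫⁻ w, ENNReal.ofReal (w i) ∂π = c at *
  calc c + a + (c + a) = c + (c + a + a) := by ring
    _ ≤ c + (c + a + b) := by gcongr

end
end Pool.Agent.H.MP_a2bed5_pr
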